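import Pool.Agent.H28.RC.Targets2

set_option autoImplicit false
set_option linter.unusedSectionVars false

open NumberField NumberField.InfinitePlace Complex

namespace Pool.Agent.H99.RC

open Pool.Agent.H28.RC Pool.Agent.H25.HK Pool.Agent.H25

section
variable {K : Type} [Field K] [NumberField K]

lemma sg_pos (S : Finset (RP K)) {x : K} (hx : ∀ v : RP K, 0 < re v x) : sg K S x = 1 := by
  rw [sg_eq]
  exact Finset.prod_eq_one fun v _ => by unfold sg1; rw [if_pos (hx v)]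

lemma coe_ne {a : 𝓞 K} (ha : a ≠ 0) : (a : K) ≠ 0 := by
  intro h
  exact ha (RingOfIntegers.coe_eq_zero_iff.1 h)

lemma span_ne {a : 𝓞 K} (ha : a ≠ 0) : (Ideal.span {a} : Ideal (𝓞 K)) ≠ ⊥ := by
  rwa [Ne, Ideal.span_singleton_eq_bot]

lemma mul_ne {I J : Ideal (𝓞 K)} (hI : I ≠ ⊥) (hJ : J ≠ ⊥) : I * J ≠ ⊥ :=
  mul_ne_zero (M₀ := Ideal (𝓞 K)) hI hJ

lemma mul_canc {I J L : Ideal (𝓞 K)} (hI : I ≠ ⊥) (h : I * J = I * L) : J = L :=
  mul_left_cancel₀ (M₀ := Ideal (𝓞 K)) hI h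

lemma sup_mul_top {I J L : Ideal (𝓞 K)} (h1 : I ⊔ L = ⊤) (h2 : J ⊔ L = ⊤) : I * J ⊔ L = ⊤ := by
  rw [← Ideal.isCoprime_iff_sup_eq] at h1 h2 ⊢
  exact h1.mul_left h2

lemma sup_top_of_le {I J L : Ideal (𝓞 K)} (h1 : I ⊔ L = ⊤) (h2 : I ≤ J) : J ⊔ L = ⊤ :=
  top_le_iff.1 (h1.symm.le.trans (sup_le_sup_right h2 L))

lemma sup_top_of_le' {I L L' : Ideal (𝓞 K)} (h1 : I ⊔ L = ⊤) (h2 : L ≤ L') : I ⊔ L' = ⊤ :=
  top_le_iff.1 (h1.symm.le.trans (sup_le_sup_left h2 I))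

lemma span_sup_top {a : 𝓞 K} {L : Ideal (𝓞 K)} (h : a - 1 ∈ L) : Ideal.span {a} ⊔ L = ⊤ := by
  rw [Ideal.eq_top_iff_one]
  have h1 : (1 : 𝓞 K) = a - (a - 1) := by ring
  rw [h1]
  exact Ideal.sub_mem _ (Ideal.mem_sup_left (Ideal.mem_span_singleton_self a))
    (Ideal.mem_sup_right h)

/-- the product of the primes containing `m` but not `f` -/
lemma exQ (m f : Ideal (𝓞 K)) (hm : m ≠ ⊥) : ∃ Q : Ideal (𝓞 K), Q ≠ ⊥ ∧ Q ⊔ f = ⊤ ∧
    ∀ P : Ideal (𝓞 K), P.IsPrime → m ≤ P → f ≤ P ∨ Q ≤ P := by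
  classical
  set s := (UniqueFactorizationMonoid.normalizedFactors m).toFinset.filter (fun P => ¬ f ≤ P)
    with hs
  have hs1 : ∀ P ∈ s, P.IsPrime ∧ P ≠ ⊥ ∧ ¬ f ≤ P := by
    intro P hP
    rw [hs, Finset.mem_filter, Multiset.mem_toFinset, Ideal.mem_normalizedFactors_iff hm] at hP
    refine ⟨hP.1.1, ?_, hP.2⟩
    rintro rfl
    exact hm (le_bot_iff.1 hP.1.2)
  refine ⟨∏ P ∈ s, P, ?_, ?_, ?_⟩
  · exact Finset.prod_ne_zero_iff.2 fun P hP => (hs1 P hP).2.1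
  · rw [← Ideal.isCoprime_iff_sup_eq]
    refine IsCoprime.prod_left fun P hP => ?_
    obtain ⟨h1, h2, h3⟩ := hs1 P hP
    rw [Ideal.isCoprime_iff_sup_eq]
    have h4 : P.IsMaximal := h1.isMaximal h2
    refine h4.1.2 _ (lt_of_le_of_ne le_sup_left ?_)
    intro h5
    exact h3 (h5 ▸ le_sup_right)
  · intro P hP hmP
    by_cases hf : f ≤ P
    · exact Or.inl hf
    · right
      have h1 : P ∈ s := by
        rw [hs, Finset.mem_filter, Multiset.mem_toFinset, Ideal.mem_normalizedFactors_iff hm]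
        exact ⟨⟨hP, hmP⟩, hf⟩
      rw [← Finset.mul_prod_erase s _ h1]
      exact Ideal.mul_le_left

/-- existence of a complementary ideal -/
lemma exB (hSGN : T_SGN) (m f : Ideal (𝓞 K)) (hm : m ≠ ⊥) (hmf : m ≤ f) (I : Ideal (𝓞 K))
    (hI : I ≠ ⊥) (hIf : I ⊔ f = ⊤) : ∃ (b : 𝓞 K) (J : Ideal (𝓞 K)), b ≠ 0 ∧ b - 1 ∈ f ∧
      (∀ v : RP K, 0 < re v (b : K)) ∧ I * J = Ideal.span {b} ∧ J ⊔ m = ⊤ ∧ J ≠ ⊥ := by
  have hf : f ≠ ⊥ := by
    rintro rfl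
    exact hm (le_bot_iff.1 hmf)
  obtain ⟨Q, hQ0, hQf, hQ⟩ := exQ m f hm
  have hIQ0 : I * Q ≠ ⊥ := mul_ne hI hQ0
  obtain ⟨b1, hb1⟩ := IsDedekindDomain.exists_sup_span_eq (I := I * Q) (J := I)
    Ideal.mul_le_left hIQ0
  have hIQf : I * Q ⊔ f = ⊤ := sup_mul_top hIf hQf
  obtain ⟨e, he, d, hd, hed⟩ := Submodule.mem_sup.1 ((Ideal.eq_top_iff_one _).1 hIQf)
  set b2 := b1 * d + e with hb2
  have h1 : b2 - b1 ∈ I * Q := by
    have : b2 - b1 = (1 - b1) * e := by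
      rw [hb2, ← hed]
      have : d = 1 - e := by rw [← hed]; ring
      rw [this]
      ring
    rw [this]
    exact Ideal.mul_mem_left _ _ he
  have h2 : b2 - 1 ∈ f := by
    have : b2 - 1 = (b1 - 1) * d := by
      have : e = 1 - d := by rw [← hed]; ring
      rw [hb2, this]
      ring
    rw [this]
    exact Ideal.mul_mem_left _ _ hd
  obtain ⟨b, hb, hb0, -, hbp⟩ := hSGN K (I * Q * f) b2 ∅ (mul_ne hIQ0 hf)
  have h3 : b - b1 ∈ I * Q := by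
    have : b - b1 = (b - b2) + (b2 - b1) := by ring
    rw [this]
    exact Ideal.add_mem _ (Ideal.mul_le_left hb) h1
  have h4 : b - 1 ∈ f := by
    have : b - 1 = (b - b2) + (b2 - 1) := by ring
    rw [this]
    exact Ideal.add_mem _ (Ideal.mul_le_right hb) h2
  have hb1I : b1 ∈ I := by
    rw [← hb1]
    exact Ideal.mem_sup_right (Ideal.mem_span_singleton_self b1)
  have hbI : b ∈ I := by
    have : b = (b - b1) + b1 := by ring
    rw [this]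
    exact Ideal.add_mem _ (Ideal.mul_le_left h3) hb1I
  obtain ⟨J, hJ⟩ : I ∣ Ideal.span {b} := by
    rw [Ideal.dvd_iff_le, Ideal.span_singleton_le_iff_mem]
    exact hbI
  have h5 : I * (J ⊔ Q) = I := by
    rw [Ideal.mul_sup, ← hJ]
    refine le_antisymm (sup_le ((Ideal.span_singleton_le_iff_mem _).2 hbI) Ideal.mul_le_left) ?_
    conv_lhs => rw [← hb1]
    refine sup_le le_sup_right ?_
    rw [Ideal.span_singleton_le_iff_mem]
    have : b1 = b - (b - b1) := by ring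
    rw [this]
    exact Ideal.sub_mem _ (Ideal.mem_sup_left (Ideal.mem_span_singleton_self b))
      (Ideal.mem_sup_right h3)
  have h6 : J ⊔ Q = ⊤ := by
    have h7 : I * (J ⊔ Q) = I * ⊤ := by rw [h5, Ideal.mul_top]
    exact mul_canc hI h7
  refine ⟨b, J, hb0, h4, fun v => hbp v (Set.notMem_empty v), hJ.symm, ?_, ?_⟩
  · by_contra hne
    obtain ⟨P, hP, hle⟩ := Ideal.exists_le_maximal _ hne
    have hJP : J ≤ P := le_sup_left.trans hle
    have hmP : m ≤ P := le_sup_right.trans hle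
    rcases hQ P hP.isPrime hmP with h7 | h7
    · refine hP.ne_top ((Ideal.eq_top_iff_one _).2 ?_)
      have h8 : b ∈ P := by
        have : b ∈ I * J := by
          rw [← hJ]
          exact Ideal.mem_span_singleton_self b
        exact hJP (Ideal.mul_le_right this)
      have h9 : (1 : 𝓞 K) = b - (b - 1) := by ring
      rw [h9]
      exact Ideal.sub_mem _ h8 (h7 h4)
    · exact hP.ne_top (top_le_iff.1 (h6.symm.le.trans (sup_le hJP h7)))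
  · rintro rfl
    rw [Ideal.mul_bot] at hJ
    exact hb0 ((Ideal.span_singleton_eq_bot).1 hJ)

/-- the key comparison -/
lemma key (hSGN : T_SGN) {m f : Ideal (𝓞 K)} {ψ : Ideal (𝓞 K) → ℂ} {S : Finset (RP K)}
    (hψ : PC m ψ) (hmf : m ≤ f)
    (H : ∀ a : 𝓞 K, a ≠ 0 → Ideal.span {a} ⊔ m = ⊤ → a - 1 ∈ f → ψ (Ideal.span {a}) = sg K S a)
    {J J' : Ideal (𝓞 K)} (hJ0 : J ≠ ⊥) (hJ'0 : J' ≠ ⊥) (hJ : J ⊔ m = ⊤) (hJ' : J' ⊔ m = ⊤)
    {b b' : 𝓞 K} (hb0 : b ≠ 0) (hb'0 : b' ≠ 0) (hb : b - 1 ∈ f) (hb' : b' - 1 ∈ f)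
    (hbb : Ideal.span {b} * J' = Ideal.span {b'} * J) :
    ψ J' = sg K S (b : K) * sg K S (b' : K) * ψ J := by
  have hJm0 : J * m ≠ ⊥ := mul_ne hJ0 hψ.ne
  obtain ⟨e, he, d, hd, hed⟩ := Submodule.mem_sup.1 ((Ideal.eq_top_iff_one _).1 hJ)
  obtain ⟨c, hc, hc0, -, hcp⟩ := hSGN K (J * m) e ∅ hJm0
  have hcJ : c ∈ J := by
    have : c = (c - e) + e := by ring
    rw [this]
    exact Ideal.add_mem _ (Ideal.mul_le_left hc) he
  have hcm : c - 1 ∈ m := by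
    have : c - 1 = (c - e) - d := by rw [← hed]; ring
    rw [this]
    exact Ideal.sub_mem _ (Ideal.mul_le_right hc) hd
  have hcp' : ∀ v : RP K, 0 < re v (c : K) := fun v => hcp v (Set.notMem_empty v)
  obtain ⟨L, hL⟩ : J ∣ Ideal.span {c} := by
    rw [Ideal.dvd_iff_le, Ideal.span_singleton_le_iff_mem]
    exact hcJ
  have hcL : c ∈ J * L := by
    rw [← hL]
    exact Ideal.mem_span_singleton_self c
  have h1 : b' * c ∈ Ideal.span {b} := by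
    have : b' * c ∈ Ideal.span {b'} * J :=
      Ideal.mul_mem_mul (Ideal.mem_span_singleton_self b') hcJ
    rw [← hbb] at this
    exact Ideal.mul_le_left this
  obtain ⟨c', hc'⟩ := Ideal.mem_span_singleton.1 h1
  have hc'0 : c' ≠ 0 := by
    rintro rfl
    rw [mul_zero] at hc'
    exact mul_ne_zero hb'0 hc0 hc'
  have h2 : Ideal.span {c'} = J' * L := by
    have h3 : Ideal.span {b} * Ideal.span {c'} = Ideal.span {b} * (J' * L) := by
      rw [← mul_assoc, hbb, mul_assoc, ← hL, Ideal.span_singleton_mul_span_singleton,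
        Ideal.span_singleton_mul_span_singleton, hc']
    exact mul_canc (span_ne hb0) h3
  have hLm : L ⊔ m = ⊤ :=
    sup_top_of_le (span_sup_top hcm) (by rw [hL]; exact Ideal.mul_le_right)
  have hc'm : Ideal.span {c'} ⊔ m = ⊤ := by
    rw [h2]
    exact sup_mul_top hJ' hLm
  have hc'f : c' - 1 ∈ f := by
    have h3 : c' - 1 = (c - 1) + ((b' - 1) * c - (b - 1) * c') := by
      have : b' * c = b * c' := hc'
      linear_combination (-1 : 𝓞 K) * this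
    rw [h3]
    exact Ideal.add_mem _ (hmf hcm) (Ideal.sub_mem _ (Ideal.mul_mem_right _ _ hb')
      (Ideal.mul_mem_right _ _ hb))
  have h4 : ψ J * ψ L = 1 := by
    rw [← hψ.mul, ← hL]
    exact hψ.ray c hc0 hcm hcp'
  have h5 : ψ J' * ψ L = sg K S (c' : K) := by
    rw [← hψ.mul, ← h2]
    exact H c' hc'0 hc'm hc'f
  have h6 : sg K S (b' : K) = sg K S (b : K) * sg K S (c' : K) := by
    have h7 : sg K S ((b' : K) * (c : K)) = sg K S ((b : K) * (c' : K)) := by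
      have : ((b' * c : 𝓞 K) : K) = ((b * c' : 𝓞 K) : K) := by rw [hc']
      exact congrArg (sg K S) this
    rw [sg_mul S (coe_ne hb'0) (coe_ne hc0),
      sg_mul S (coe_ne hb0) (coe_ne hc'0), sg_pos S hcp', mul_one] at h7
    exact h7
  have h7 := sg_sq S (b : K)
  calc ψ J' = ψ J' * (ψ J * ψ L) := by rw [h4, mul_one]
    _ = (ψ J' * ψ L) * ψ J := by ring
    _ = (sg K S (b : K) * sg K S (b : K)) * sg K S (c' : K) * ψ J := by rw [h5, h7, one_mul]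
    _ = _ := by rw [h6]; ring

end

theorem pf_PRE (hSGN : T_SGN) : T_PRE := by
  intro K _ _ m f ψ S hψ hmf H
  classical
  have hex : ∀ I : Ideal (𝓞 K), I ≠ ⊥ ∧ I ⊔ f = ⊤ → ∃ (b : 𝓞 K) (J : Ideal (𝓞 K)), b ≠ 0 ∧
      b - 1 ∈ f ∧ (∀ v : RP K, 0 < re v (b : K)) ∧ I * J = Ideal.span {b} ∧ J ⊔ m = ⊤ ∧
      J ≠ ⊥ := fun I hI => exB hSGN m f hψ.ne hmf I hI.1 hI.2
  choose bb JJ hb0 hbf hbp hbI hJm hJ0 using hex
  set ψ' : Ideal (𝓞 K) → ℂ := fun I =>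
    if h : I ≠ ⊥ ∧ I ⊔ f = ⊤ then (starRingEnd ℂ) (ψ (JJ I h)) else 0 with hψ'
  have hv : ∀ (I : Ideal (𝓞 K)) (h : I ≠ ⊥ ∧ I ⊔ f = ⊤), ψ' I = (starRingEnd ℂ) (ψ (JJ I h)) := by
    intro I h
    rw [hψ']
    exact dif_pos h
  have hn : ∀ (I : Ideal (𝓞 K)), ¬ (I ≠ ⊥ ∧ I ⊔ f = ⊤) → ψ' I = 0 := by
    intro I h
    rw [hψ']
    exact dif_neg h
  have gen : ∀ (I : Ideal (𝓞 K)), I ≠ ⊥ → ∀ (b : 𝓞 K) (J : Ideal (𝓞 K)), b ≠ 0 → b - 1 ∈ f →
      I * J = Ideal.span {b} → J ⊔ m = ⊤ → ψ' I = sg K S (b : K) * (starRingEnd ℂ) (ψ J) := by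
    intro I hI b J h1 h2 h3 h4
    have hIf : I ⊔ f = ⊤ := sup_top_of_le (span_sup_top h2) (by rw [← h3]; exact Ideal.mul_le_left)
    have hh : I ≠ ⊥ ∧ I ⊔ f = ⊤ := ⟨hI, hIf⟩
    have hJ0' : J ≠ ⊥ := by
      rintro rfl
      rw [Ideal.mul_bot] at h3
      exact span_ne h1 h3.symm
    have h5 : Ideal.span {b} * JJ I hh = Ideal.span {bb I hh} * J := by
      rw [← h3, ← hbI I hh]
      ring
    have h6 := key hSGN hψ hmf H hJ0' (hJ0 I hh) h4 (hJm I hh) h1 (hb0 I hh) h2 (hbf I hh) h5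
    rw [hv I hh, h6, sg_pos S (hbp I hh), mul_one, map_mul, conj_sg]
  have hone : sg K S (1 : K) = 1 := sg_one S
  refine ⟨ψ', ?_, ?_, ?_, ?_, ?_, ?_, ?_, ?_⟩
  · have h1 := gen ⊤ top_ne_bot 1 ⊤ one_ne_zero (by simp) (by simp) (by simp)
    rw [h1, hψ.one, map_one, mul_one]
    have h2 : ((1 : 𝓞 K) : K) = 1 := rfl
    rw [h2, hone]
  · intro I J
    by_cases hI : I ≠ ⊥ ∧ I ⊔ f = ⊤
    · by_cases hJ : J ≠ ⊥ ∧ J ⊔ f = ⊤
      · have h1 := gen (I * J) (mul_ne hI.1 hJ.1) (bb I hI * bb J hJ) (JJ I hI * JJ J hJ)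
          (mul_ne_zero (hb0 I hI) (hb0 J hJ)) (by
            have : bb I hI * bb J hJ - 1 = bb I hI * (bb J hJ - 1) + (bb I hI - 1) := by ring
            rw [this]
            exact Ideal.add_mem _ (Ideal.mul_mem_left _ _ (hbf J hJ)) (hbf I hI)) (by
            rw [← Ideal.span_singleton_mul_span_singleton, ← hbI I hI, ← hbI J hJ]
            ring) (sup_mul_top (hJm I hI) (hJm J hJ))
        have h2 : ((bb I hI * bb J hJ : 𝓞 K) : K) = (bb I hI : K) * (bb J hJ : K) := rfl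
        rw [h1, hv I hI, hv J hJ, hψ.mul, map_mul, h2,
          sg_mul S (coe_ne (hb0 I hI)) (coe_ne (hb0 J hJ)), sg_pos S (hbp I hI),
          sg_pos S (hbp J hJ), one_mul, one_mul]
      · rw [hn J hJ, mul_zero]
        refine hn _ fun h => hJ ⟨?_, ?_⟩
        · rintro rfl
          exact h.1 (Ideal.mul_bot I)
        · exact sup_top_of_le h.2 Ideal.mul_le_right
    · rw [hn I hI, zero_mul]
      refine hn _ fun h => hI ⟨?_, ?_⟩
      · rintro rfl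
        exact h.1 (Ideal.bot_mul J)
      · exact sup_top_of_le h.2 Ideal.mul_le_left
  · exact hn _ fun h => h.1 rfl
  · intro I h1 h2
    rw [hv I ⟨h1, h2⟩, RCLike.norm_conj]
    exact hψ.norm _ (hJ0 _ _) (hJm _ _)
  · intro I h
    exact hn _ fun h1 => h h1.2
  · intro a ha haf
    have hh : (Ideal.span {a} : Ideal (𝓞 K)) ≠ ⊥ ∧ Ideal.span {a} ⊔ f = ⊤ :=
      ⟨span_ne ha, span_sup_top haf⟩
    have h5 : Ideal.span {a} * JJ _ hh = Ideal.span {bb _ hh} * ⊤ := by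
      rw [hbI _ hh, Ideal.mul_top]
    have h6 := key hSGN hψ hmf H top_ne_bot (hJ0 _ hh) (top_sup_eq m) (hJm _ hh) ha (hb0 _ hh) haf
      (hbf _ hh) h5
    rw [hv _ hh, h6, sg_pos S (hbp _ hh), hψ.one, mul_one, mul_one, conj_sg]
  · intro I hI hIm
    have hh : I ≠ ⊥ ∧ I ⊔ f = ⊤ := ⟨hI, sup_top_of_le' hIm hmf⟩
    rw [hv I hh]
    have h1 : ψ I * ψ (JJ I hh) = 1 := by
      rw [← hψ.mul, hbI I hh, H _ (hb0 I hh) (by
        rw [← hbI I hh]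
        exact sup_mul_top hIm (hJm I hh)) (hbf I hh), sg_pos S (hbp I hh)]
    have h2 : ψ (JJ I hh) * (starRingEnd ℂ) (ψ (JJ I hh)) = 1 := by
      rw [Complex.mul_conj, Complex.normSq_eq_norm_sq, hψ.norm _ (hJ0 _ _) (hJm _ _)]
      simp
    calc (starRingEnd ℂ) (ψ (JJ I hh))
        = (ψ I * ψ (JJ I hh)) * (starRingEnd ℂ) (ψ (JJ I hh)) := by rw [h1, one_mul]
      _ = ψ I * (ψ (JJ I hh) * (starRingEnd ℂ) (ψ (JJ I hh))) := by ring
      _ = ψ I := by rw [h2, mul_one]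
  · intro I
    by_cases hI : I ≠ ⊥ ∧ I ⊔ f = ⊤
    · exact Or.inr ⟨JJ I hI, hJ0 I hI, hJm I hI, hv I hI⟩
    · exact Or.inl (hn I hI)

theorem pf_PRM (hPRS : T_PRS) (hPRE : T_PRE) : T_PRM := by
  intro K _ _ m ψ hψ
  obtain ⟨S, hS⟩ := hPRS K m ψ hψ
  set X : Set (Ideal (𝓞 K)) := {f | m ≤ f ∧ ∀ a : 𝓞 K, a ≠ 0 → Ideal.span {a} ⊔ m = ⊤ →
    a - 1 ∈ f → ψ (Ideal.span {a}) = sg K S a} with hX
  have hmX : m ∈ X := ⟨le_rfl, fun a ha _ h => hS a ha h⟩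
  obtain ⟨f, hfX, hmax⟩ := WellFounded.has_min
    (wellFounded_gt (α := Ideal (𝓞 K))) X ⟨m, hmX⟩
  obtain ⟨hmf, H⟩ := hfX
  have hf0 : f ≠ ⊥ := by
    rintro rfl
    exact hψ.ne (le_bot_iff.1 hmf)
  obtain ⟨ψ', h1, h2, h3, h4, h5, h6, h7, h8⟩ := hPRE K m f ψ S hψ hmf H
  refine ⟨⟨f, S, ψ', hf0, h1, h2, h3, h4, h5, h6, ?_⟩, hmf, h7, h8⟩
  intro P hP hfP
  obtain ⟨g, hg⟩ : P ∣ f := Ideal.dvd_iff_le.2 hfP
  have hg0 : g ≠ ⊥ := by
    rintro rfl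
    rw [Ideal.mul_bot] at hg
    exact hf0 hg
  have h9 : ∀ x : 𝓞 K, x ∈ f.colon (P : Set (𝓞 K)) ↔ ∀ s ∈ P, x * s ∈ f := by
    intro x
    rw [Submodule.mem_colon]
    rfl
  have hlt : f < f.colon (P : Set (𝓞 K)) := by
    refine lt_of_le_of_ne (fun x hx => (h9 x).2 fun s _ => Ideal.mul_mem_right _ _ hx) fun he => ?_
    have h10 : g ≤ f := by
      rw [he]
      intro x hx
      rw [h9]
      intro s hs
      rw [hg, mul_comm x s]
      exact Ideal.mul_mem_mul hs hx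
    obtain ⟨h, hh⟩ : f ∣ g := Ideal.dvd_iff_le.2 h10
    have h11 : g * 1 = g * (P * h) := by
      rw [mul_one]
      calc g = f * h := hh
        _ = P * g * h := by rw [← hg]
        _ = g * (P * h) := by ring
    have h12 := mul_canc hg0 h11
    refine hP.ne_top (top_le_iff.1 ?_)
    rw [← Ideal.one_eq_top, h12]
    exact Ideal.mul_le_left
  have hnX : ¬ (f.colon (P : Set (𝓞 K)) ∈ X) := fun h => hmax _ h hlt
  have h10 : ∃ a : 𝓞 K, a ≠ 0 ∧ Ideal.span {a} ⊔ m = ⊤ ∧ a - 1 ∈ f.colon (P : Set (𝓞 K)) ∧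
      ψ (Ideal.span {a}) ≠ sg K S a := by
    by_contra hcon
    push Not at hcon
    exact hnX ⟨hmf.trans hlt.le, fun a ha1 ha2 ha3 => hcon a ha1 ha2 ha3⟩
  obtain ⟨a, ha0, ham, haf, hane⟩ := h10
  refine ⟨a, ha0, sup_top_of_le' ham hmf, fun x hx => (h9 _).1 haf x hx, ?_⟩
  rw [show ψ' (Ideal.span {a}) = ψ (Ideal.span {a}) from h7 _ (span_ne ha0) ham]
  exact hane

end Pool.Agent.H99.RC
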